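import Pool.Agent.U7.SW.Basic

/-!
# Sandwich words and groups of bounded exponent
-/

set_option autoImplicit false

open scoped commutatorElement

namespace Pool.Agent.U7.SW

open Pool.Agent.U613.PO

universe u v

/-- the free Burnside group -/
abbrev B (m n : ℕ) : Type :=
  FreeGroup (Fin m) ⧸ Subgroup.normalClosure (Set.range fun w : FreeGroup (Fin m) => w ^ n)

/-- its generators -/
def gen (m n : ℕ) (i : Fin m) : B m n := QuotientGroup.mk (FreeGroup.of i)

theorem B_pow (m n : ℕ) (x : B m n) : x ^ n = 1 := by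
  obtain ⟨y, rfl⟩ := QuotientGroup.mk_surjective x
  rw [← QuotientGroup.mk_pow, QuotientGroup.eq_one_iff]
  exact Subgroup.subset_normalClosure ⟨y, rfl⟩

/-- the universal property -/
def liftB {G : Type u} [Group G] {n : ℕ} (hG : ∀ x : G, x ^ n = 1) {m : ℕ} (g : Fin m → G) :
    B m n →* G :=
  QuotientGroup.lift _ (FreeGroup.lift g) (by
    intro x hx
    have h : Subgroup.normalClosure (Set.range fun w : FreeGroup (Fin m) => w ^ n) ≤
        (FreeGroup.lift g).ker := by
      apply Subgroup.normalClosure_le_normal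
      rintro _ ⟨w, rfl⟩
      rw [SetLike.mem_coe, MonoidHom.mem_ker, map_pow]
      exact hG _
    exact h hx)

theorem liftB_gen {G : Type u} [Group G] {n : ℕ} (hG : ∀ x : G, x ^ n = 1) {m : ℕ}
    (g : Fin m → G) (i : Fin m) : liftB hG g (gen m n i) = g i := by
  unfold liftB gen
  rw [QuotientGroup.lift_mk, FreeGroup.lift_apply_of]

/-- the sequence of the generators, continued by `1` -/
def seq (m n : ℕ) (i : ℕ) : B m n := if h : i < m then gen m n ⟨i, h⟩ else 1

theorem law_of {n m k : ℕ} (hk : k < m) (h : sw (seq m n) k = 1) {G : Type u} [Group G]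
    (hG : ∀ x : G, x ^ n = 1) (g : ℕ → G) : sw g k = 1 := by
  have h1 := map_sw (liftB hG (m := m) fun i => g i) (seq m n) k
  rw [h, map_one] at h1
  rw [h1]
  apply sw_congr
  intro i hi
  have hi' : i < m := by omega
  rw [seq, dif_pos hi', liftB_gen]

/-- the largest group of exponent `n` on countably many generators -/
abbrev BI (n : ℕ) : Type :=
  FreeGroup ℕ ⧸ Subgroup.normalClosure (Set.range fun w : FreeGroup ℕ => w ^ n)

theorem BI_pow (n : ℕ) (x : BI n) : x ^ n = 1 := by
  obtain ⟨y, rfl⟩ := QuotientGroup.mk_surjective x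
  rw [← QuotientGroup.mk_pow, QuotientGroup.eq_one_iff]
  exact Subgroup.subset_normalClosure ⟨y, rfl⟩

theorem BI_ne {n m k : ℕ} (h : sw (seq m n) k ≠ 1) :
    sw (fun i => (QuotientGroup.mk (FreeGroup.of i) : BI n)) k ≠ 1 := by
  intro h1
  apply h
  let f : BI n →* B m n := QuotientGroup.lift _ (FreeGroup.lift (seq m n)) (by
    intro x hx
    have h : Subgroup.normalClosure (Set.range fun w : FreeGroup ℕ => w ^ n) ≤
        (FreeGroup.lift (seq m n)).ker := by
      apply Subgroup.normalClosure_le_normal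
      rintro _ ⟨w, rfl⟩
      rw [SetLike.mem_coe, MonoidHom.mem_ker, map_pow]
      exact B_pow m n _
    exact h hx)
  have h2 := map_sw f (fun i => (QuotientGroup.mk (FreeGroup.of i) : BI n)) k
  rw [h1, map_one] at h2
  rw [h2]
  congr 1
  funext i
  show seq m n i = f _
  rw [QuotientGroup.lift_mk, FreeGroup.lift_apply_of]

/-- a group in which the elements `w_k` do not become trivial has a nontrivial quotient without
nontrivial abelian normal subgroups -/
theorem exists_quotient {H : Type v} [Group H] (g : ℕ → H) (h : ∀ k, sw g k ≠ 1) :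
    ∃ N : Subgroup H, ∃ _ : N.Normal, Nontrivial (H ⧸ N) ∧ ¬ HasAb (H ⧸ N) := by
  let P : Set (Subgroup H) := {N | N.Normal ∧ ∀ k, sw g k ∉ N}
  have hz : ∃ N, Maximal (fun N => N ∈ P) N := by
    apply zorn_le₀
    intro c hc hch
    rcases c.eq_empty_or_nonempty with rfl | hne
    · exact ⟨⊥, ⟨inferInstance, fun k hk => h k (Subgroup.mem_bot.1 hk)⟩, by simp⟩
    · refine ⟨sSup c, ⟨?_, ?_⟩, fun N hN => le_sSup hN⟩
      · constructor
        intro x hx y
        rw [Subgroup.mem_sSup_of_directedOn hne hch.directedOn] at hx ⊢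
        obtain ⟨N, hN, hxN⟩ := hx
        exact ⟨N, hN, (hc hN).1.conj_mem x hxN y⟩
      · intro k hk
        rw [Subgroup.mem_sSup_of_directedOn hne hch.directedOn] at hk
        obtain ⟨N, hN, hxN⟩ := hk
        exact (hc hN).2 k hxN
  obtain ⟨N, ⟨hN, hk⟩, hmax⟩ := hz
  refine ⟨N, hN, ?_, ?_⟩
  · rw [QuotientGroup.nontrivial_iff]
    rintro rfl
    exact hk 0 (Subgroup.mem_top _)
  · rintro ⟨A, hA, hA1, hAc⟩
    let M := A.comap (QuotientGroup.mk' N)
    have hM : M.Normal := hA.comap _
    have hNM : N ≤ M := by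
      intro x hx
      rw [Subgroup.mem_comap, QuotientGroup.mk'_apply, (QuotientGroup.eq_one_iff x).2 hx]
      exact one_mem _
    have hMP : M ∉ P := by
      intro hMP
      have h1 : M ≤ N := hmax hMP hNM
      apply hA1
      rw [eq_bot_iff]
      intro q hq
      obtain ⟨x, rfl⟩ := QuotientGroup.mk_surjective q
      rw [Subgroup.mem_bot, QuotientGroup.eq_one_iff]
      exact h1 hq
    have h2 : ∃ k, sw g k ∈ M := by
      by_contra h3
      push Not at h3
      exact hMP ⟨hM, h3⟩
    obtain ⟨k, hkM⟩ := h2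
    apply hk (k + 1)
    have h3 : ⁅g (k + 1), sw g k⁆ ∈ M := comm_left_mem M hM _ hkM
    have h4 := hAc _ h3 _ hkM
    rw [← QuotientGroup.eq_one_iff]
    show (QuotientGroup.mk' N) (sw g (k + 1)) = 1
    simp only [sw]
    rw [map_commutatorElement, commutatorElement_eq_one_iff_mul_comm]
    exact h4

/-- `n ∈ 𝓛` -/
def InL (n : ℕ) : Prop := ∀ (G : Type u) [Group G], (∀ x : G, x ^ n = 1) →
  ∀ S : Set G, S.Finite → Finite (Subgroup.closure S)

/-- every nontrivial group of exponent `n` has a nontrivial abelian normal subgroup -/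
def Hyp (n : ℕ) : Prop := ∀ (G : Type u) [Group G], Nontrivial G → (∀ x : G, x ^ n = 1) → HasAb G

theorem hyp_of {n m k : ℕ} (hk : k < m) (h : sw (seq m n) k = 1) : Hyp.{u} n :=
  fun _ _ _ hG => hasAb_of_law k fun g => law_of hk h hG g

theorem of_hyp {n : ℕ} (h : Hyp.{u} n) : ∃ k, sw (seq (k + 1) n) k = 1 := by
  by_contra h1
  push Not at h1
  obtain ⟨N, hN, hnt, hA⟩ := exists_quotient
    (fun i => (QuotientGroup.mk (FreeGroup.of i) : BI n)) fun k => BI_ne (h1 k)
  apply hA
  obtain ⟨A, hA1, hA2, hA3⟩ := h (ULift.{u} (BI n ⧸ N)) inferInstance (by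
    rintro ⟨x⟩
    obtain ⟨y, rfl⟩ := QuotientGroup.mk_surjective x
    apply ULift.ext
    show ((y : BI n ⧸ N)) ^ n = 1
    rw [← QuotientGroup.mk_pow, BI_pow]
    rfl)
  refine ⟨A.comap (MulEquiv.ulift (α := BI n ⧸ N)).symm.toMonoidHom, hA1.comap _, ?_, ?_⟩
  · intro h2
    apply hA2
    rw [eq_bot_iff]
    rintro ⟨x⟩ hx
    have h3 : x ∈ A.comap (MulEquiv.ulift (α := BI n ⧸ N)).symm.toMonoidHom := hx
    rw [h2, Subgroup.mem_bot] at h3
    rw [Subgroup.mem_bot, h3]
    rfl
  · intro x hx y hy
    have h4 := hA3 _ hx _ hy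
    exact congrArg ULift.down h4

/-- abelian periodic groups are locally finite -/
theorem lf_comm {G : Type u} [Group G] (A : Subgroup G) (hA : ∀ x ∈ A, ∀ y ∈ A, x * y = y * x)
    (hG : ∀ x : G, IsOfFinOrder x) : LF A := by
  intro S hS
  have : Finite S := hS
  let _ : CommGroup (Subgroup.closure S) :=
    { (inferInstance : Group (Subgroup.closure S)) with
      mul_comm := fun a b => Subtype.ext (Subtype.ext (hA _ a.1.2 _ b.1.2)) }
  have hfg : Group.FG (Subgroup.closure S) := inferInstance
  have ht : IsMulTorsion (Subgroup.closure S) := by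
    intro x
    have h1 := hG ((x : A) : G)
    rw [isOfFinOrder_iff_pow_eq_one] at h1 ⊢
    obtain ⟨n, hn, h2⟩ := h1
    refine ⟨n, hn, Subtype.ext (Subtype.ext ?_)⟩
    simpa using h2
  exact CommGroup.finite_of_fg_isMulTorsion _ ht

/-- a periodic group all of whose nontrivial quotients have nontrivial abelian normal subgroups is
locally finite -/
theorem lf_of_quot {G : Type u} [Group G] (hG : ∀ x : G, IsOfFinOrder x)
    (h : ∀ N : Subgroup G, ∀ _ : N.Normal, Nontrivial (G ⧸ N) → HasAb (G ⧸ N)) : LF G := by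
  let P : Set (Subgroup G) := {N | N.Normal ∧ LF N}
  have hz : ∃ N, Maximal (fun N => N ∈ P) N := by
    apply zorn_le₀
    intro c hc hch
    rcases c.eq_empty_or_nonempty with rfl | hne
    · exact ⟨⊥, ⟨inferInstance, fun S _ => inferInstance⟩, by simp⟩
    · refine ⟨sSup c, ⟨?_, ?_⟩, fun N hN => le_sSup hN⟩
      · constructor
        intro x hx y
        rw [Subgroup.mem_sSup_of_directedOn hne hch.directedOn] at hx ⊢
        obtain ⟨N, hN, hxN⟩ := hx
        exact ⟨N, hN, (hc hN).1.conj_mem x hxN y⟩
      · intro S hS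
        have h1 : ∀ T : Set G, T.Finite → T ⊆ (sSup c : Subgroup G) → ∃ N ∈ c, T ⊆ (N : Set G) := by
          intro T hT
          induction T, hT using Set.Finite.induction_on with
          | empty => intro _; exact ⟨hne.some, hne.some_mem, Set.empty_subset _⟩
          | insert _ _ ih =>
            intro h2
            obtain ⟨N, hN, h3⟩ := ih ((Set.subset_insert _ _).trans h2)
            have h4 := h2 (Set.mem_insert _ _)
            rw [SetLike.mem_coe, Subgroup.mem_sSup_of_directedOn hne hch.directedOn] at h4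
            obtain ⟨M, hM, h5⟩ := h4
            rcases hch.total hN hM with h6 | h6
            · exact ⟨M, hM, Set.insert_subset h5 (h3.trans h6)⟩
            · exact ⟨N, hN, Set.insert_subset (h6 h5) h3⟩
        obtain ⟨N, hN, h2⟩ := h1 (Subtype.val '' S) (hS.image _) (by
          rintro _ ⟨x, _, rfl⟩
          exact x.2)
        have h3 : Finite (Subgroup.closure
            ((fun x : N => (x : G)) ⁻¹' (Subtype.val '' S) : Set N)) := by
          apply (hc hN).2
          exact (hS.image _).preimage (Subtype.coe_injective.injOn)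
        have h4 : (Subgroup.closure S).map (sSup c : Subgroup G).subtype ≤
            (Subgroup.closure ((fun x : N => (x : G)) ⁻¹' (Subtype.val '' S) : Set N)).map
              N.subtype := by
          rw [MonoidHom.map_closure, Subgroup.closure_le]
          rintro _ ⟨x, hx, rfl⟩
          exact ⟨⟨x, h2 ⟨x, hx, rfl⟩⟩, Subgroup.subset_closure ⟨x, hx, rfl⟩, rfl⟩
        have h5 : Finite ((Subgroup.closure
            ((fun x : N => (x : G)) ⁻¹' (Subtype.val '' S) : Set N)).map N.subtype) :=
          Finite.of_surjective _ (N.subtype.subgroupMap_surjective _)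
        have h6 : Finite ((Subgroup.closure S).map (sSup c : Subgroup G).subtype) :=
          Finite.Set.subset _ h4
        exact Finite.of_equiv _ ((Subgroup.closure S).equivMapOfInjective
          (sSup c : Subgroup G).subtype (sSup c : Subgroup G).subtype_injective).symm.toEquiv
  obtain ⟨N, ⟨hN, hlf⟩, hmax⟩ := hz
  by_cases hnt : Nontrivial (G ⧸ N)
  · exfalso
    have hq : ∀ x : G ⧸ N, IsOfFinOrder x := by
      intro x
      obtain ⟨y, rfl⟩ := QuotientGroup.mk_surjective x
      exact (QuotientGroup.mk' N).isOfFinOrder (hG y)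
    obtain ⟨A, hA, hA1, hAc⟩ := h N hN hnt
    let M := A.comap (QuotientGroup.mk' N)
    have hM : M.Normal := hA.comap _
    have hNM : N ≤ M := by
      intro x hx
      rw [Subgroup.mem_comap, QuotientGroup.mk'_apply, (QuotientGroup.eq_one_iff x).2 hx]
      exact one_mem _
    have hMP : M ∈ P := by
      let f : M →* A := ((QuotientGroup.mk' N).comp M.subtype).codRestrict A fun x => x.2
      refine ⟨hM, lf_ext f.ker ?_ ?_⟩
      · refine hlf.inj (K := f.ker) ⟨⟨fun x => ⟨((x : M) : G), ?_⟩, rfl⟩, fun a b => rfl⟩ ?_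
        · have := congrArg (fun z : A => (z : G ⧸ N)) x.2
          exact (QuotientGroup.eq_one_iff _).1 this
        · intro a b hab
          have := congrArg (fun z : N => (z : G)) hab
          exact Subtype.ext (Subtype.ext this)
      · exact (lf_comm A hAc hq).inj (QuotientGroup.kerLift f) (QuotientGroup.kerLift_injective f)
    have h1 : M ≤ N := hmax hMP hNM
    apply hA1
    rw [eq_bot_iff]
    intro q hq
    obtain ⟨x, rfl⟩ := QuotientGroup.mk_surjective q
    rw [Subgroup.mem_bot, QuotientGroup.eq_one_iff]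
    exact h1 hq
  · rw [QuotientGroup.nontrivial_iff, not_not] at hnt
    subst hnt
    exact hlf.inj (Subgroup.topEquiv (G := G)).symm.toMonoidHom
      (Subgroup.topEquiv (G := G)).symm.injective

theorem lf_of_hyp {n : ℕ} (hn : 1 ≤ n) (h : Hyp.{u} n) : InL.{u} n := by
  intro G _ hG
  refine lf_of_quot (fun x => isOfFinOrder_iff_pow_eq_one.2 ⟨n, hn, hG x⟩) ?_
  intro N _ hnt
  refine h (G ⧸ N) hnt ?_
  intro x
  obtain ⟨y, rfl⟩ := QuotientGroup.mk_surjective x
  rw [← QuotientGroup.mk_pow, hG]
  rfl

/-- small derived length, class, or class of the normal closure of `a` -/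
def Small (k : ℕ) {F : Type u} [Group F] (a : F) : Prop :=
  derivedSeries F k = ⊥ ∨ (⊤ : Subgroup F).lowerCentralSeries (2 ^ (k + 1) - 2) = ⊥ ∨
    (Subgroup.normalClosure {a}).lowerCentralSeries (2 ^ k - 1) = ⊥

theorem Small.sw_eq {k : ℕ} {F : Type u} [Group F] {a : F} (h : Small k a) (g : ℕ → F)
    (hg : g 0 = a) : sw g k = 1 := by
  rcases h with h | h | h
  · have := sw_mem_derived g k
    rw [h] at this
    exact Subgroup.mem_bot.1 this
  · have := sw_mem_lcs g k
    rw [h] at this
    exact Subgroup.mem_bot.1 this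
  · have := sw_mem_lcs_closure (Subgroup.normalClosure {a}) Subgroup.normalClosure_normal g
      (by rw [hg]; exact Subgroup.subset_normalClosure rfl) k
    rw [h] at this
    exact Subgroup.mem_bot.1 this

/-- a periodic group whose `(k+1)`-generator subgroups are small is locally finite -/
theorem lf_of_small {G : Type u} [Group G] (hG : ∀ x : G, IsOfFinOrder x) (k : ℕ)
    (h : ∀ g : Fin (k + 1) → G, Small k
      (⟨g 0, Subgroup.subset_closure ⟨0, rfl⟩⟩ : Subgroup.closure (Set.range g))) : LF G := by
  have hl : ∀ g : ℕ → G, sw g k = 1 := by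
    intro g
    have hmem : ∀ i : Fin (k + 1), g i ∈ Subgroup.closure (Set.range fun i : Fin (k + 1) => g i) :=
      fun i => Subgroup.subset_closure ⟨i, rfl⟩
    let g' : ℕ → Subgroup.closure (Set.range fun i : Fin (k + 1) => g i) :=
      fun i => if hi : i < k + 1 then ⟨g i, hmem ⟨i, hi⟩⟩ else 1
    have h1 := (h fun i => g i).sw_eq g' (by
      show (if hi : 0 < k + 1 then (⟨g 0, hmem ⟨0, hi⟩⟩ :
        Subgroup.closure (Set.range fun i : Fin (k + 1) => g i)) else 1) = _
      rw [dif_pos (Nat.succ_pos k)]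
      rfl)
    have h2 := map_sw (Subgroup.closure (Set.range fun i : Fin (k + 1) => g i)).subtype g' k
    rw [h1, map_one] at h2
    rw [h2]
    apply sw_congr
    intro i hi
    have hi' : i < k + 1 := by omega
    show g i = ((if hi : i < k + 1 then (⟨g i, hmem ⟨i, hi⟩⟩ :
        Subgroup.closure (Set.range fun i : Fin (k + 1) => g i)) else 1 :
        Subgroup.closure (Set.range fun i : Fin (k + 1) => g i)) : G)
    rw [dif_pos hi']
  refine lf_of_quot hG ?_
  intro N _ hnt
  apply hasAb_of_law k
  intro g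
  choose g' hg' using fun i => QuotientGroup.mk_surjective (g i)
  have h3 := map_sw (QuotientGroup.mk' N) g' k
  rw [hl g', map_one] at h3
  rw [h3]
  apply sw_congr
  intro i _
  exact (hg' i).symm

theorem hyp_of_small {n k : ℕ} (h : Small k (gen (k + 1) n 0)) : Hyp.{u} n := by
  apply hyp_of (Nat.lt_succ_self k)
  apply h.sw_eq
  rw [seq, dif_pos (Nat.succ_pos k)]
  rfl

theorem closure_gen (m n : ℕ) : Subgroup.closure (Set.range (gen m n)) = ⊤ := by
  have h4 : Set.range (gen m n) = (QuotientGroup.mk' (Subgroup.normalClosure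
      (Set.range fun w : FreeGroup (Fin m) => w ^ n))) '' Set.range FreeGroup.of := by
    rw [← Set.range_comp]
    rfl
  rw [h4, ← MonoidHom.map_closure, FreeGroup.closure_range_of, ← MonoidHom.range_eq_map,
    MonoidHom.range_eq_top]
  exact QuotientGroup.mk'_surjective _

/-- `𝓛` in terms of free Burnside groups, one direction -/
theorem B_finite {m n : ℕ} (h : InL.{u} n) : Finite (B m n) := by
  have h1 := h (ULift.{u} (B m n)) (by
    rintro ⟨x⟩
    exact ULift.ext _ _ (B_pow m n x)) (Set.range fun i : Fin m => ULift.up (gen m n i))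
    (Set.finite_range _)
  have h2 : Subgroup.closure (Set.range fun i : Fin m => ULift.up.{u} (gen m n i)) = ⊤ := by
    have h5 : (Set.range fun i : Fin m => ULift.up.{u} (gen m n i)) =
        ((MulEquiv.ulift (α := B m n)).symm.toMonoidHom : B m n →* ULift.{u} (B m n)) ''
          Set.range (gen m n) := by
      rw [← Set.range_comp]
      rfl
    rw [h5, ← MonoidHom.map_closure, closure_gen, ← MonoidHom.range_eq_map,
      MonoidHom.range_eq_top]
    exact (MulEquiv.ulift (α := B m n)).symm.surjective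
  rw [h2] at h1
  have h6 : Finite (ULift.{u} (B m n)) := Finite.of_equiv _ (Subgroup.topEquiv).toEquiv
  exact Finite.of_equiv _ Equiv.ulift

end Pool.Agent.U7.SW
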