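import Pool.Agent.U7.SW.Heis
import Pool.Agent.U7.SW.Main
import Pool.Agent.Results.MP_544bd1_al.TwoGeneratorsMultiplesOfFive

/-!
# The multiples of seven
-/

set_option autoImplicit false

namespace Pool.Agent.U7.SW

open Pool.Agent.U613

universe u

/-- the class bound of Vaughan-Lee and Zelmanov for `52` generators -/
def CB : Prop := ∀ (F : Type) [Group F] [Finite F], (∀ y : F, y ^ 7 = 1) →
  ∀ g : Fin 52 → F, Subgroup.closure (Set.range g) = ⊤ →
    (⊤ : Subgroup F).lowerCentralSeries (51 * 52 ^ 8) = ⊥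

theorem lcs_bot {G : Type u} [Group G] {a b : ℕ} (hab : a ≤ b)
    (h : (⊤ : Subgroup G).lowerCentralSeries a = ⊥) : (⊤ : Subgroup G).lowerCentralSeries b = ⊥ :=
  le_bot_iff.1 ((Subgroup.lowerCentralSeries_antitone _ hab).trans h.le)

theorem small_of {k c : ℕ} {F : Type u} [Group F] {a : F} (hc : c ≤ 2 ^ (k + 1) - 2)
    (h : (⊤ : Subgroup F).lowerCentralSeries c = ⊥) : Small k a :=
  Or.inr (Or.inl (lcs_bot hc h))

theorem seven_of_b (hc : CB) (h : Finite (PO.B 52 7)) : InL.{u} 7 :=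
  lf_of_hyp (by norm_num) (hyp_of_small (k := 51) (small_of (c := 51 * 52 ^ 8) (by norm_num)
    (hc (B 52 7) (B_pow 52 7) (gen 52 7) (closure_gen 52 7))))

/-- two prime divisors -/
theorem pf_card {a b i : ℕ} (ha : a.Prime) (hb : b.Prime) : (a ^ i * b).primeFactors.card ≤ 2 := by
  rw [Nat.primeFactors_mul (pow_ne_zero _ ha.ne_zero) hb.ne_zero, hb.primeFactors]
  refine (Finset.card_union_le _ _).trans ?_
  have h1 : (a ^ i).primeFactors ⊆ {a} := by
    rcases Nat.eq_zero_or_pos i with rfl | hi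
    · simp
    · rw [Nat.primeFactors_prime_pow hi.ne' ha]
  have h2 := Finset.card_le_card h1
  rw [Finset.card_singleton] at h2
  rw [Finset.card_singleton]
  omega

/-- the prime powers dividing `a ^ i * 7` -/
theorem pp_seven {a i p k : ℕ} (ha : a.Prime) (h7 : a ≠ 7) (hp : p.Prime) (h : p ^ k ∣ a ^ i * 7) :
    p ^ k ∣ a ^ i ∨ p ^ k ∣ 7 := by
  have h7p : Nat.Prime 7 := by norm_num
  by_cases hpa : p = 7
  · right
    exact (Nat.Coprime.pow k i ((Nat.coprime_primes hp ha).2 (by rw [hpa]; exact h7.symm))).dvd_of_dvd_mul_left h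
  · left
    exact (Nat.Coprime.pow_left k ((Nat.coprime_primes hp h7p).2 hpa)).dvd_of_dvd_mul_right h

theorem pp_inL {a i : ℕ} (ha : a.Prime) (h7 : a ≠ 7) (hi : a ^ i ≤ 4) (hL : InL.{u} 7) :
    Pool.Agent.Results.MP_544bd1_al.TwoGenerators.PrimePowersInL.{u} (a ^ i * 7) := by
  intro p k hp hk h4
  rcases pp_seven ha h7 hp hk with h | h
  · have := Nat.le_of_dvd (pow_pos ha.pos _) h
    omega
  · have h1 : p ^ k = 7 := ((Nat.dvd_prime (by norm_num)).1 h).resolve_left (by omega)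
    rw [h1]
    exact hL

theorem of_two {a i : ℕ} (ha : a.Prime) (h7 : a ≠ 7) (hi : a ^ i ≤ 4) (hL : InL.{u} 7)
    (hA : Pool.Agent.Results.MP_544bd1_al.TwoGenerators.Admissible (a ^ i * 7))
    (h : Finite (PO.B 2 (a ^ i * 7))) : InL.{u} (a ^ i * 7) := by
  have h1 := (Pool.Agent.Results.MP_544bd1_al.TwoGenerators.result.{u}).2 (a ^ i * 7)
    (Nat.mul_pos (pow_pos ha.pos _) (by norm_num)) hA
  exact (h1.2 (Or.inl (pf_card ha (by norm_num)))).2 ⟨pp_inL ha h7 hi hL, h⟩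

/-- `7`, `14`, `21`, `28`, `35` -/
theorem seven (hc : CB) :
    (InL.{u} 7 ↔ Finite (B 52 7)) ∧ (InL.{u} 14 ↔ Finite (B 5 14)) ∧
    (InL.{u} 21 ↔ Finite (B 3 21)) ∧ (InL.{u} 28 ↔ Finite (B 2 28)) ∧
    (InL.{u} 35 ↔ Finite (B 2 35)) ∧
    ∀ c : ℕ, 4 ≤ c → Finite (B 2 (c * 7)) → InL.{u} 7 := by
  have hadm := (Pool.Agent.Results.MP_544bd1_al.TwoGenerators.result.{u}).1
  have hc4 : ∀ c : ℕ, 4 ≤ c → Finite (B 2 (c * 7)) → InL.{u} 7 := fun c h4 h =>
    seven_of_b hc (fifty_of_two h4 h)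
  refine ⟨⟨B_finite, seven_of_b hc⟩, ⟨B_finite, fun h => ?_⟩, ⟨B_finite, fun h => ?_⟩,
    ⟨B_finite, fun h => ?_⟩, ⟨B_finite, fun h => ?_⟩, hc4⟩
  · have h1 : Finite (PO.B 5 (2 * 7)) := h
    have h2 : InL.{u} 7 := seven_of_b hc (PO.b_mono (by norm_num)
      (fin_ab (c := 2) (m := 7) (by norm_num) (by norm_num) h1))
    have h3 : Finite (PO.B 2 (2 ^ 1 * 7)) := PO.b_mono (by norm_num) h1
    have h4 := (hadm 7 (by decide) (by norm_num)).2.1
    exact of_two (a := 2) (i := 1) Nat.prime_two (by norm_num) (by norm_num) h2 h4 h3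
  · have h1 : Finite (PO.B 3 (3 * 7)) := h
    have h2 : InL.{u} 7 := seven_of_b hc (PO.b_mono (by norm_num)
      (fin_ab (c := 3) (m := 7) (by norm_num) (by norm_num) h1))
    have h3 : Finite (PO.B 2 (3 ^ 1 * 7)) := PO.b_mono (by norm_num) h1
    have h4 := (hadm 21 (by decide) (by norm_num)).1
    exact of_two (a := 3) (i := 1) Nat.prime_three (by norm_num) (by norm_num) h2 h4 h3
  · have h1 : Finite (PO.B 2 (4 * 7)) := h
    have h2 : InL.{u} 7 := hc4 4 le_rfl h1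
    have h3 : Finite (PO.B 2 (2 ^ 2 * 7)) := h
    have h4 := (hadm 7 (by decide) (by norm_num)).2.2 (by norm_num) (by norm_num) (by norm_num) 2
    exact of_two (a := 2) (i := 2) Nat.prime_two (by norm_num) (by norm_num) h2 h4 h3
  · have h2 : InL.{u} 7 := hc4 5 (by norm_num) h
    have h3 := (Pool.Agent.Results.MP_544bd1_al.TwoGeneratorsMultiplesOfFive.result.{u}).2.1 7 1
      (by norm_num) (by norm_num) le_rfl
    exact h3.2 ⟨by rw [pow_one]; exact h2, h⟩

end Pool.Agent.U7.SW
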