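import Mathlib
import Pool.Agent.U613.PO.LF

/-!
# Sandwich words

`sw g 0 = g 0`, `sw g (k + 1) = [[g (k + 1), sw g k], sw g k]`.
-/

set_option autoImplicit false

open scoped commutatorElement

namespace Pool.Agent.U7.SW

universe u v

/-- the words `w_0 = g_0`, `w_(k+1) = [[g_(k+1), w_k], w_k]` -/
def sw {G : Type*} [Group G] (g : ℕ → G) : ℕ → G
  | 0 => g 0
  | k + 1 => ⁅⁅g (k + 1), sw g k⁆, sw g k⁆

theorem map_sw {G : Type*} {K : Type*} [Group G] [Group K] (f : G →* K) (g : ℕ → G) (k : ℕ) :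
    f (sw g k) = sw (fun i => f (g i)) k := by
  induction k with
  | zero => rfl
  | succ k ih => simp only [sw, map_commutatorElement, ih]

theorem sw_congr {G : Type*} [Group G] (g h : ℕ → G) (k : ℕ) (e : ∀ i ≤ k, g i = h i) :
    sw g k = sw h k := by
  induction k with
  | zero => exact e 0 le_rfl
  | succ k ih => simp only [sw, ih fun i hi => e i (Nat.le_succ_of_le hi), e (k + 1) le_rfl]

theorem three_sub {G : Type*} [Group G] (H₁ H₂ H₃ L : Subgroup G) [L.Normal]
    (h1 : ⁅⁅H₂, H₃⁆, H₁⁆ ≤ L) (h2 : ⁅⁅H₃, H₁⁆, H₂⁆ ≤ L) : ⁅⁅H₁, H₂⁆, H₃⁆ ≤ L := by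
  have key : ∀ K : Subgroup G, K ≤ L ↔ K.map (QuotientGroup.mk' L) = ⊥ := by
    intro K
    rw [Subgroup.map_eq_bot_iff, QuotientGroup.ker_mk']
  rw [key] at h1 h2 ⊢
  simp only [Subgroup.map_commutator] at h1 h2 ⊢
  exact Subgroup.commutator_commutator_eq_bot_of_rotate h1 h2

theorem lcs_normal {G : Type*} [Group G] (S : Subgroup G) (hS : S.Normal) (i : ℕ) :
    (S.lowerCentralSeries i).Normal := by
  induction i with
  | zero => exact hS
  | succ i ih =>
    rw [Subgroup.lowerCentralSeries_succ]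
    exact Subgroup.commutator_normal _ _

theorem lcs_comm {G : Type*} [Group G] (S : Subgroup G) (hS : S.Normal) (j : ℕ) : ∀ i : ℕ,
    ⁅S.lowerCentralSeries i, S.lowerCentralSeries j⁆ ≤ S.lowerCentralSeries (i + j + 1) := by
  induction j with
  | zero => intro i; exact le_rfl
  | succ j ih =>
    intro i
    have := lcs_normal S hS (i + (j + 1) + 1)
    rw [Subgroup.commutator_comm, Subgroup.lowerCentralSeries_succ]
    apply three_sub
    · rw [Subgroup.commutator_comm S, ← Subgroup.lowerCentralSeries_succ]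
      have := ih (i + 1)
      rwa [show i + 1 + j + 1 = i + (j + 1) + 1 by ring] at this
    · have := Subgroup.commutator_mono (ih i) (le_refl S)
      rw [← Subgroup.lowerCentralSeries_succ] at this
      rwa [show i + j + 1 + 1 = i + (j + 1) + 1 by ring] at this

theorem comm_left_mem {G : Type*} [Group G] (N : Subgroup G) (hN : N.Normal) (g : G) {z : G}
    (hz : z ∈ N) : ⁅g, z⁆ ∈ N := by
  rw [commutatorElement_def]
  exact N.mul_mem (hN.conj_mem z hz g) (N.inv_mem hz)

/-- the word lies in the derived series -/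
theorem sw_mem_derived {G : Type*} [Group G] (g : ℕ → G) (k : ℕ) :
    sw g k ∈ derivedSeries G k := by
  induction k with
  | zero => exact Subgroup.mem_top _
  | succ k ih =>
    rw [derivedSeries_succ]
    exact Subgroup.commutator_mem_commutator (comm_left_mem _ (derivedSeries_normal G k) _ ih) ih

/-- the word has weight `2 ^ (k + 1) - 1` -/
theorem sw_mem_lcs {G : Type*} [Group G] (g : ℕ → G) (k : ℕ) :
    sw g k ∈ (⊤ : Subgroup G).lowerCentralSeries (2 ^ (k + 1) - 2) := by
  induction k with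
  | zero => exact Subgroup.mem_top _
  | succ k ih =>
    have hn : (⊤ : Subgroup G).Normal := inferInstance
    have h1 : ⁅g (k + 1), sw g k⁆ ∈
        (⊤ : Subgroup G).lowerCentralSeries (2 ^ (k + 1) - 2 + 1) := by
      rw [Subgroup.lowerCentralSeries_succ, Subgroup.commutator_comm]
      exact Subgroup.commutator_mem_commutator (Subgroup.mem_top _) ih
    have h2 := lcs_comm (⊤ : Subgroup G) hn (2 ^ (k + 1) - 2) (2 ^ (k + 1) - 2 + 1)
      (Subgroup.commutator_mem_commutator h1 ih)
    have h3 : 2 ≤ 2 ^ (k + 1) := by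
      calc 2 = 2 ^ 1 := rfl
        _ ≤ 2 ^ (k + 1) := Nat.pow_le_pow_right (by norm_num) (by omega)
    have h4 : 2 ^ (k + 1 + 1) = 2 * 2 ^ (k + 1) := by ring
    have e : 2 ^ (k + 1) - 2 + 1 + (2 ^ (k + 1) - 2) + 1 = 2 ^ (k + 1 + 1) - 2 := by omega
    rw [e] at h2
    exact h2

/-- the word has degree `2 ^ k` in its first variable -/
theorem sw_mem_lcs_closure {G : Type*} [Group G] (N : Subgroup G) (hN : N.Normal) (g : ℕ → G)
    (h0 : g 0 ∈ N) (k : ℕ) : sw g k ∈ N.lowerCentralSeries (2 ^ k - 1) := by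
  induction k with
  | zero => exact h0
  | succ k ih =>
    have h1 : ⁅g (k + 1), sw g k⁆ ∈ N.lowerCentralSeries (2 ^ k - 1) :=
      comm_left_mem _ (lcs_normal N hN _) _ ih
    have h2 := lcs_comm N hN (2 ^ k - 1) (2 ^ k - 1)
      (Subgroup.commutator_mem_commutator h1 ih)
    have h3 : 1 ≤ 2 ^ k := Nat.one_le_two_pow
    have h4 : 2 ^ (k + 1) = 2 * 2 ^ k := by ring
    have e : 2 ^ k - 1 + (2 ^ k - 1) + 1 = 2 ^ (k + 1) - 1 := by omega
    rw [e] at h2
    exact h2

/-- a group has an abelian normal subgroup different from `1` -/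
def HasAb (G : Type u) [Group G] : Prop :=
  ∃ A : Subgroup G, A.Normal ∧ A ≠ ⊥ ∧ ∀ x ∈ A, ∀ y ∈ A, x * y = y * x

/-- an element which commutes with all `[h, z]` has an abelian normal closure -/
theorem hasAb_of {G : Type u} [Group G] (z : G) (hz : z ≠ 1) (h : ∀ x : G, ⁅⁅x, z⁆, z⁆ = 1) :
    HasAb G := by
  have h1 : ∀ x : G, (x * z * x⁻¹) * z = z * (x * z * x⁻¹) := by
    intro x
    have h2 := h x
    rw [commutatorElement_eq_one_iff_mul_comm, commutatorElement_def] at h2
    have h3 : x * z * x⁻¹ * z⁻¹ * z = x * z * x⁻¹ := by group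
    rw [h3] at h2
    have h4 : z * (x * z * x⁻¹ * z⁻¹) * z = z * (x * z * x⁻¹) := by group
    rw [← h4, ← h2]
  have h2 : ∀ a b : G, (a * z * a⁻¹) * (b * z * b⁻¹) = (b * z * b⁻¹) * (a * z * a⁻¹) := by
    intro a b
    have h3 := congrArg (fun t => b * t * b⁻¹) (h1 (b⁻¹ * a))
    simp only [mul_inv_rev, inv_inv] at h3
    calc (a * z * a⁻¹) * (b * z * b⁻¹) = b * (b⁻¹ * a * z * (a⁻¹ * b) * z) * b⁻¹ := by group
      _ = b * (z * (b⁻¹ * a * z * (a⁻¹ * b))) * b⁻¹ := h3
      _ = (b * z * b⁻¹) * (a * z * a⁻¹) := by group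
  refine ⟨Subgroup.normalClosure {z}, Subgroup.normalClosure_normal, ?_, ?_⟩
  · intro h3
    have h4 : z ∈ Subgroup.normalClosure ({z} : Set G) := Subgroup.subset_normalClosure rfl
    rw [h3, Subgroup.mem_bot] at h4
    exact hz h4
  · have h5 : ∀ x ∈ Group.conjugatesOfSet ({z} : Set G), ∀ y ∈ Group.conjugatesOfSet ({z} : Set G),
        x * y = y * x := by
      intro x hx y hy
      rw [Group.mem_conjugatesOfSet_iff] at hx hy
      obtain ⟨a, ha, hx⟩ := hx
      obtain ⟨b, hb, hy⟩ := hy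
      rw [Set.mem_singleton_iff] at ha hb
      subst ha hb
      rw [isConj_iff] at hx hy
      obtain ⟨c, rfl⟩ := hx
      obtain ⟨d, rfl⟩ := hy
      exact h2 c d
    intro x hx y hy
    have h6 : Subgroup.normalClosure ({z} : Set G) ≤ Subgroup.centralizer
        (Subgroup.normalClosure ({z} : Set G) : Set G) := by
      have h7 : Subgroup.normalClosure ({z} : Set G) =
        Subgroup.closure (Group.conjugatesOfSet ({z} : Set G)) := rfl
      rw [h7, Subgroup.closure_le]
      intro a ha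
      rw [SetLike.mem_coe, Subgroup.mem_centralizer_iff]
      intro b hb
      induction hb using Subgroup.closure_induction with
      | mem c hc => exact h5 c hc a ha
      | one => simp
      | mul c d _ _ e1 e2 => rw [mul_assoc, e2, ← mul_assoc, e1, mul_assoc]
      | inv c _ e1 =>
        calc c⁻¹ * a = c⁻¹ * (a * c) * c⁻¹ := by group
          _ = c⁻¹ * (c * a) * c⁻¹ := by rw [e1]
          _ = a * c⁻¹ := by group
    exact ((Subgroup.mem_centralizer_iff.1 (h6 hx)) y hy).symm

/-- a nontrivial group satisfying the law `w_k` has a nontrivial abelian normal subgroup -/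
theorem hasAb_of_law {G : Type u} [Group G] [Nontrivial G] (k : ℕ) (h : ∀ g : ℕ → G, sw g k = 1) :
    HasAb G := by
  classical
  have hex : ∃ k, ∀ g : ℕ → G, sw g k = 1 := ⟨k, h⟩
  have h1 := Nat.find_spec hex
  have h2 : Nat.find hex ≠ 0 := by
    intro h3
    rw [h3] at h1
    obtain ⟨x, hx⟩ := exists_ne (1 : G)
    exact hx (h1 fun _ => x)
  obtain ⟨j, hj⟩ := Nat.exists_eq_succ_of_ne_zero h2
  have h3 : ¬ ∀ g : ℕ → G, sw g j = 1 := Nat.find_min hex (by omega)
  push Not at h3
  obtain ⟨g, hg⟩ := h3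
  refine hasAb_of (sw g j) hg ?_
  intro x
  have h4 := h1 (Function.update g (j + 1) x)
  rw [hj] at h4
  have h5 : sw (Function.update g (j + 1) x) j = sw g j := by
    apply sw_congr
    intro i hi
    rw [Function.update_of_ne (by omega)]
  simp only [sw, Function.update_self, h5] at h4
  exact h4

end Pool.Agent.U7.SW
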