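import Pool.Agent.U7.SW.Main
import Pool.Agent.Y50.FE.Main

/-!
# Exponent five
-/

set_option autoImplicit false

open scoped commutatorElement

namespace Pool.Agent.U7.SW

open Pool.Agent.U613.PO

universe u

/-- a nontrivial group of exponent five with finite 3-generator subgroups has a nontrivial abelian
normal subgroup -/
theorem hasAb_five {G : Type} [Group G] [Nontrivial G] (h5 : ∀ g : G, g ^ 5 = 1)
    (h3 : ∀ a b c : G, Finite (Subgroup.closure ({a, b, c} : Set G))) : HasAb G := by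
  by_contra hno
  have P : ∀ c : G, (∀ h : G, ⁅⁅h, c⁆, c⁆ = 1) → c = 1 := by
    intro c hc
    by_contra h1
    exact hno (hasAb_of c h1 hc)
  have C : ∀ z : G, (∀ v : G, ⁅⁅⁅v, z⁆, z⁆, z⁆ = 1) → z = 1 := by
    intro z hz
    refine P z fun g => ?_
    exact P _ fun h => Pool.Agent.Y50.FE.lemC' h5 h3 z hz g h
  obtain ⟨x, hx⟩ := exists_ne (1 : G)
  apply hx
  refine C x fun y => ?_
  exact C _ fun g => Pool.Agent.Y50.FE.lemB' h5 h3 x y g

theorem three_finite {n : ℕ} (h : Finite (B 3 n)) {G : Type u} [Group G] (hG : ∀ g : G, g ^ n = 1)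
    (a b c : G) : Finite (Subgroup.closure ({a, b, c} : Set G)) := by
  have h1 : Subgroup.closure ({a, b, c} : Set G) ≤ (liftB hG (m := 3) ![a, b, c]).range := by
    rw [Subgroup.closure_le]
    rintro x (rfl | rfl | rfl)
    · exact ⟨gen 3 n 0, liftB_gen hG _ 0⟩
    · exact ⟨gen 3 n 1, liftB_gen hG _ 1⟩
    · exact ⟨gen 3 n 2, liftB_gen hG _ 2⟩
  have h2 : Finite (liftB hG (m := 3) ![a, b, c]).range :=
    Finite.of_surjective _ (liftB hG (m := 3) ![a, b, c]).rangeRestrict_surjective
  exact Finite.Set.subset ((liftB hG (m := 3) ![a, b, c]).range : Set G) h1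

theorem hyp_five : InL.{u} 5 ↔ Hyp.{u} 5 := by
  constructor
  · intro h
    have h1 : Hyp.{0} 5 := by
      intro G _ hnt hG
      exact hasAb_five hG (three_finite (B_finite h) hG)
    obtain ⟨k, hk⟩ := of_hyp h1
    exact hyp_of (Nat.lt_succ_self k) hk
  · exact lf_of_hyp (by norm_num)

end Pool.Agent.U7.SW
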