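import Pool.Agent.U613.PO.Main

/-!
# Transfer of finiteness of free Burnside groups to more generators and a divisor of the exponent
-/

set_option autoImplicit false

namespace Pool.Agent.U7.SW

open Pool.Agent.U613

/-- upper unitriangular `3 × 3` matrices -/
@[ext]
structure Hs (p : ℕ) where
  a : ZMod p
  b : ZMod p
  c : ZMod p

namespace Hs

variable {p : ℕ}

instance : Mul (Hs p) := ⟨fun x y => ⟨x.a + y.a, x.b + y.b, x.c + y.c + x.a * y.b⟩⟩
instance : One (Hs p) := ⟨⟨0, 0, 0⟩⟩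
instance : Inv (Hs p) := ⟨fun x => ⟨-x.a, -x.b, -x.c + x.a * x.b⟩⟩

@[simp] theorem mul_a (x y : Hs p) : (x * y).a = x.a + y.a := rfl
@[simp] theorem mul_b (x y : Hs p) : (x * y).b = x.b + y.b := rfl
@[simp] theorem mul_c (x y : Hs p) : (x * y).c = x.c + y.c + x.a * y.b := rfl
@[simp] theorem one_a : (1 : Hs p).a = 0 := rfl
@[simp] theorem one_b : (1 : Hs p).b = 0 := rfl
@[simp] theorem one_c : (1 : Hs p).c = 0 := rfl
@[simp] theorem inv_a (x : Hs p) : (x⁻¹).a = -x.a := rfl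
@[simp] theorem inv_b (x : Hs p) : (x⁻¹).b = -x.b := rfl
@[simp] theorem inv_c (x : Hs p) : (x⁻¹).c = -x.c + x.a * x.b := rfl

instance : Group (Hs p) :=
  Group.ofLeftAxioms (fun x y z => by ext <;> simp <;> ring) (fun x => by ext <;> simp)
    (fun x => by ext <;> simp)

theorem pow_eq (x : Hs p) (n : ℕ) :
    (x ^ n).a = n * x.a ∧ (x ^ n).b = n * x.b ∧
      (x ^ n).c = n * x.c + (n.choose 2 : ℕ) * (x.a * x.b) := by
  induction n with
  | zero => simp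
  | succ n ih =>
    obtain ⟨h1, h2, h3⟩ := ih
    rw [pow_succ]
    refine ⟨?_, ?_, ?_⟩
    · rw [mul_a, h1]; push_cast; ring
    · rw [mul_b, h2]; push_cast; ring
    · rw [mul_c, h3, h1, Nat.choose_succ_succ' n 1, Nat.choose_one_right]
      push_cast
      ring

theorem pow_p (hp : Odd p) (x : Hs p) : x ^ p = 1 := by
  obtain ⟨h1, h2, h3⟩ := pow_eq x p
  have h4 : ((p.choose 2 : ℕ) : ZMod p) = 0 := by
    rw [ZMod.natCast_eq_zero_iff, Nat.choose_two_right]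
    obtain ⟨k, hk⟩ := hp
    refine ⟨k, ?_⟩
    rw [hk, Nat.add_sub_cancel, ← mul_assoc, mul_comm _ 2, mul_assoc, Nat.mul_div_cancel_left _ (by norm_num)]
  ext
  · rw [h1, ZMod.natCast_self, zero_mul]; rfl
  · rw [h2, ZMod.natCast_self, zero_mul]; rfl
  · rw [h3, ZMod.natCast_self, h4, zero_mul, zero_mul, zero_add]; rfl

/-- the coordinates -/
def eqv : Hs p ≃ ZMod p × ZMod p × ZMod p where
  toFun x := (x.a, x.b, x.c)
  invFun x := ⟨x.1, x.2.1, x.2.2⟩
  left_inv _ := rfl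
  right_inv _ := rfl

theorem card : Nat.card (Hs p) = p * (p * p) := by
  rw [Nat.card_congr eqv, Nat.card_prod, Nat.card_prod, Nat.card_zmod]

instance [NeZero p] : Finite (Hs p) := Finite.of_equiv _ eqv.symm

/-- the two generators -/
def gn (p : ℕ) : Fin 2 → Hs p := ![⟨1, 0, 0⟩, ⟨0, 1, 0⟩]

theorem gn_gen [NeZero p] : Subgroup.closure (Set.range (gn p)) = ⊤ := by
  rw [eq_top_iff]
  rintro x -
  have hX : (⟨1, 0, 0⟩ : Hs p) ∈ Subgroup.closure (Set.range (gn p)) :=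
    Subgroup.subset_closure ⟨0, rfl⟩
  have hY : (⟨0, 1, 0⟩ : Hs p) ∈ Subgroup.closure (Set.range (gn p)) :=
    Subgroup.subset_closure ⟨1, rfl⟩
  have hZ : (⟨0, 0, 1⟩ : Hs p) ∈ Subgroup.closure (Set.range (gn p)) := by
    have h : (⟨0, 0, 1⟩ : Hs p) =
        ⟨1, 0, 0⟩ * ⟨0, 1, 0⟩ * (⟨1, 0, 0⟩ : Hs p)⁻¹ * (⟨0, 1, 0⟩ : Hs p)⁻¹ := by
      ext <;> simp
    rw [h]
    exact mul_mem (mul_mem (mul_mem hX hY) (inv_mem hX)) (inv_mem hY)
  have h : x = (⟨0, 1, 0⟩ : Hs p) ^ x.b.val * (⟨1, 0, 0⟩ : Hs p) ^ x.a.val *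
      (⟨0, 0, 1⟩ : Hs p) ^ x.c.val := by
    obtain ⟨a1, a2, a3⟩ := pow_eq (⟨0, 1, 0⟩ : Hs p) x.b.val
    obtain ⟨b1, b2, b3⟩ := pow_eq (⟨1, 0, 0⟩ : Hs p) x.a.val
    obtain ⟨c1, c2, c3⟩ := pow_eq (⟨0, 0, 1⟩ : Hs p) x.c.val
    ext
    · rw [mul_a, mul_a, a1, b1, c1]; simp
    · rw [mul_b, mul_b, a2, b2, c2]; simp
    · rw [mul_c, mul_c, mul_a, a1, b1, a3, b3, c3, b2, c2]; simp
  rw [h]
  exact mul_mem (mul_mem (pow_mem hY _) (pow_mem hX _)) (pow_mem hZ _)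

end Hs

/-- no conditions on the orders -/
theorem p_zero {k n : ℕ} (h : Finite (PO.B k n)) : Finite (PO.P k n fun _ => 0) := by
  obtain ⟨f, hf⟩ := PO.b_onto (PO.p_exp k n fun _ => 0)
    (fun i => (QuotientGroup.mk (FreeGroup.of i) : PO.P k n fun _ => 0))
  have h1 : f.range = ⊤ := by
    rw [hf]
    exact PO.quot_gen _
  exact Finite.of_surjective f (MonoidHom.range_eq_top.1 h1)

theorem fin_of_b {C : Type} [Group C] [Finite C] {k : ℕ} (x : Fin k → C)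
    (hx : Subgroup.closure (Set.range x) = ⊤) {c m ρ : ℕ} (hc : ∀ a : C, a ^ c = 1)
    (hρ : ρ + Nat.card C = k * Nat.card C + 1) (h : Finite (PO.B k (c * m))) :
    Finite (PO.B ρ m) :=
  PO.transfer_finite x hx (fun _ => 0) (fun _ => Or.inl rfl) hc (by simpa using hρ) (p_zero h)

theorem fin_heis {p m : ℕ} (hp : Odd p) (h : Finite (PO.B 2 (p * m))) :
    Finite (PO.B (p * (p * p) + 1) m) := by
  have : NeZero p := ⟨by rintro rfl; simp at hp⟩
  exact fin_of_b (Hs.gn p) Hs.gn_gen (Hs.pow_p hp) (by rw [Hs.card]; ring) h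

theorem fin_ab {c k m : ℕ} (hc : 1 ≤ c) (hk : 1 ≤ k) (h : Finite (PO.B k (c * m))) :
    Finite (PO.B ((k - 1) * c ^ k + 1) m) := by
  have h0 : c ≠ 0 := by omega
  have : NeZero c := ⟨h0⟩
  refine fin_of_b (PO.cg (fun _ : Fin k => c)) (PO.cg_gen _) (PO.cy_exp _ fun _ => dvd_rfl) ?_ h
  rw [PO.cy_card, Finset.prod_const, Finset.card_univ, Fintype.card_fin]
  obtain ⟨k, rfl⟩ : ∃ j, k = j + 1 := ⟨k - 1, by omega⟩
  rw [Nat.add_sub_cancel]
  ring

/-- two generators of a multiple `c m` of the exponent, `c ≥ 4`, give `52` generators -/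
theorem fifty_of_two {c m : ℕ} (hc : 4 ≤ c) (h : Finite (PO.B 2 (c * m))) :
    Finite (PO.B 52 m) := by
  rcases (show c = 4 ∨ c = 5 ∨ c = 6 ∨ c = 7 ∨ 8 ≤ c by omega) with rfl | rfl | rfl | rfl | h8
  · have h1 := fin_ab (c := 2) (k := 2) (m := 2 * m) (by norm_num) (by norm_num)
      (by rwa [← mul_assoc])
    have h2 := fin_ab (c := 2) (m := m) (by norm_num) (by norm_num) h1
    exact PO.b_mono (by norm_num) h2
  · exact PO.b_mono (by norm_num) (fin_heis (by decide) h)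
  · have h1 := fin_ab (c := 2) (k := 2) (m := 3 * m) (by norm_num) (by norm_num)
      (by rwa [← mul_assoc])
    have h2 := fin_ab (c := 3) (m := m) (by norm_num) (by norm_num) h1
    exact PO.b_mono (by norm_num) h2
  · exact PO.b_mono (by norm_num) (fin_heis (by decide) h)
  · refine PO.b_mono ?_ (fin_ab (by omega) (by norm_num) h)
    have : 8 ^ 2 ≤ c ^ 2 := Nat.pow_le_pow_left h8 2
    omega

end Pool.Agent.U7.SW
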